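import Mathlib

namespace Pool.Agent.Results.MP_42f001_co.PrimeGraphs

/-- `y` is a function of the set `S` of vertices (`y ∉ S`): some Boolean function `f` of the
adjacencies to the members of `S` gives the adjacency to `y`, for all vertices outside
`S ∪ {y}`. -/
def IsFunctionOf {V : Type} (G : SimpleGraph V) (y : V) (S : Finset V) : Prop :=
  y ∉ S ∧ ∃ f : (S → Prop) → Prop, ∀ z : V, z ≠ y → z ∉ S →
    (G.Adj y z ↔ f (fun x => G.Adj x z))

/-- The functionality of the vertex `y` in `G`: the least number of vertices of which `y`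
is a function. -/
noncomputable def funAt {V : Type} (G : SimpleGraph V) (y : V) : ℕ :=
  sInf {k | ∃ S : Finset V, S.card = k ∧ IsFunctionOf G y S}

/-- The functionality of `G`: the maximum over all nonempty induced subgraphs of the minimum
over their vertices of the functionality of the vertex in the induced subgraph. -/
noncomputable def functionality {V : Type} (G : SimpleGraph V) : ℕ :=
  ⨆ s : {s : Set V // s.Nonempty}, ⨅ y : s.1, funAt (G.induce s.1) y

/-- Modules: every vertex outside is adjacent to all or to none of `M`. -/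
def IsModule {V : Type} (G : SimpleGraph V) (M : Set V) : Prop :=
  ∀ v, v ∉ M → (∀ m ∈ M, G.Adj v m) ∨ (∀ m ∈ M, ¬ G.Adj v m)

/-- Prime graphs: all modules are trivial (empty, everything, or a singleton). -/
def IsPrimeGraph {V : Type} (G : SimpleGraph V) : Prop :=
  ∀ M : Set V, IsModule G M → M = ∅ ∨ M = Set.univ ∨ ∃ v, M = {v}

/-- Hereditary classes of finite graphs: closed under isomorphism and induced subgraphs. -/
def Hereditary (X : ∀ V : Type, SimpleGraph V → Prop) : Prop :=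
  ∀ (V W : Type) [Finite V] [Finite W] (G : SimpleGraph V) (H : SimpleGraph W),
    Nonempty (H ↪g G) → X V G → X W H

/-! ### Relative form -/

/-- relative form of being a function inside `T` -/
def Fn {W : Type} (H : SimpleGraph W) (T : Set W) (y : W) (S : Finset W) : Prop :=
  ∀ z ∈ T, ∀ w ∈ T, z ∉ S → z ≠ y → w ∉ S → w ≠ y →
    (∀ x ∈ S, (H.Adj x z ↔ H.Adj x w)) → (H.Adj y z ↔ H.Adj y w)

/-- the constant pattern `c` is treated correctly -/
def Zc {W : Type} (H : SimpleGraph W) (M : Set W) (c : Prop) (y : W) (E : Finset W) : Prop :=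
  ∀ z ∈ M, z ∉ E → z ≠ y → (∀ x ∈ E, (H.Adj x z ↔ c)) → (H.Adj y z ↔ c)

/-- no vertex of `M` outside `D` has constant pattern `c` on `D` -/
def Dom {W : Type} (H : SimpleGraph W) (M : Set W) (c : Prop) (D : Finset W) : Prop :=
  ∀ z ∈ M, z ∉ D → ¬ (∀ x ∈ D, (H.Adj x z ↔ c))

/-- goal for the core lemma -/
def Good {W : Type} (H : SimpleGraph W) (M : Set W) (m : ℕ) : Prop :=
  ∃ y ∈ M, ∃ D : Finset W, (↑D : Set W) ⊆ M ∧ y ∉ D ∧ D.card ≤ m ∧ Fn H M y D ∧
    Zc H M True y D ∧ Zc H M False y D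

lemma dom_mono {W : Type} {H : SimpleGraph W} {M : Set W} {c : Prop} {D E : Finset W}
    (h : Dom H M c D) (hDE : D ⊆ E) : Dom H M c E := by
  intro z hz hzE hx
  exact h z hz (fun h' => hzE (hDE h')) (fun x hx' => hx x (hDE hx'))

lemma zc_of_dom {W : Type} {H : SimpleGraph W} {M : Set W} {c : Prop} {E : Finset W}
    (h : Dom H M c E) (y : W) : Zc H M c y E := by
  intro z hz hzE _ hx
  exact absurd hx (h z hz hzE)

lemma dom_of_not_zc {W : Type} [DecidableEq W] {H : SimpleGraph W} {M : Set W} {c : Prop}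
    {E : Finset W} {y : W} (hF : Fn H M y E) (h : ¬ Zc H M c y E) :
    Dom H M c (insert y E) := by
  unfold Zc at h
  push Not at h
  obtain ⟨z₀, hz₀M, hz₀E, hz₀y, hpat, hbad⟩ := h
  intro z hz hzE hx
  have h1 : z ≠ y := fun h => hzE (by simp [h])
  have h2 : z ∉ E := fun h => hzE (by simp [h])
  have h3 := hF z hz z₀ hz₀M h2 h1 hz₀E hz₀y (fun x hxE => by
    rw [hpat x hxE]; exact hx x (by simp [hxE]))
  have h4 := hx y (by simp)
  rw [h3] at h4
  tauto

/-- the stage lemma -/
lemma stage {W : Type} [DecidableEq W] [Finite W] {H : SimpleGraph W} {M : Set W} {k : ℕ}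
    (hk : ∀ T ⊆ M, T.Nonempty → ∃ y ∈ T, ∃ S : Finset W, (↑S : Set W) ⊆ T ∧ y ∉ S ∧
      S.card ≤ k ∧ Fn H T y S)
    (D : Finset W) (hD : (↑D : Set W) ⊆ M) (hne : ¬ M ⊆ ↑D) :
    ∃ y ∈ M, ∃ E : Finset W, D ⊆ E ∧ (↑E : Set W) ⊆ M ∧ y ∉ E ∧ E.card ≤ D.card + k ∧
      Fn H M y E := by
  obtain ⟨v, hvM, hvD⟩ := Set.not_subset.mp hne
  obtain ⟨y, hyT, S, hST, hyS, hScard, hF⟩ := hk (M \ ↑D) Set.sdiff_subset ⟨v, hvM, hvD⟩
  refine ⟨y, hyT.1, D ∪ S, Finset.subset_union_left, ?_, ?_, ?_, ?_⟩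
  · rw [Finset.coe_union]
    exact Set.union_subset hD (hST.trans Set.sdiff_subset)
  · rw [Finset.mem_union]
    rintro (h | h)
    · exact hyT.2 h
    · exact hyS h
  · exact (Finset.card_union_le _ _).trans (by omega)
  · intro z hz w hw hzE hzy hwE hwy hx
    rw [Finset.mem_union, not_or] at hzE hwE
    exact hF z ⟨hz, fun h => hzE.1 h⟩ w ⟨hw, fun h => hwE.1 h⟩ hzE.2 hzy hwE.2 hwy
      (fun x hxS => hx x (by simp [hxS]))

lemma good_mono {W : Type} {H : SimpleGraph W} {M : Set W} {m n : ℕ}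
    (h : Good H M m) (hmn : m ≤ n) : Good H M n := by
  obtain ⟨y, hy, D, h1, h2, h3, h4⟩ := h
  exact ⟨y, hy, D, h1, h2, h3.trans hmn, h4⟩

lemma good_of_subset {W : Type} [DecidableEq W] [Finite W] {H : SimpleGraph W} {M : Set W}
    (hM : M.Nonempty) (D : Finset W) (hD : (↑D : Set W) ⊆ M) (hne : M ⊆ ↑D) :
    Good H M D.card := by
  obtain ⟨y, hy⟩ := hM
  have hz : ∀ z ∈ M, z ∉ D.erase y → z ≠ y → False := by
    intro z hz h1 h2
    exact h1 (Finset.mem_erase.mpr ⟨h2, hne hz⟩)
  refine ⟨y, hy, D.erase y, ?_, by simp, Finset.card_erase_le, ?_, ?_, ?_⟩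
  · exact (Finset.coe_subset.mpr (Finset.erase_subset _ _)).trans hD
  · intro z hz' w _ h1 h2
    exact (hz z hz' h1 h2).elim
  · intro z hz' h1 h2
    exact (hz z hz' h1 h2).elim
  · intro z hz' h1 h2
    exact (hz z hz' h1 h2).elim

lemma claim2 {W : Type} [DecidableEq W] [Finite W] {H : SimpleGraph W} {M : Set W} {k : ℕ}
    (hM : M.Nonempty)
    (hk : ∀ T ⊆ M, T.Nonempty → ∃ y ∈ T, ∃ S : Finset W, (↑S : Set W) ⊆ T ∧ y ∉ S ∧
      S.card ≤ k ∧ Fn H T y S)
    (D : Finset W) (hD : (↑D : Set W) ⊆ M) (h1 : Dom H M True D) (h0 : Dom H M False D) :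
    Good H M (D.card + k) := by
  by_cases hne : M ⊆ ↑D
  · exact good_mono (good_of_subset hM D hD hne) (by omega)
  · obtain ⟨y, hy, E, hDE, hEM, hyE, hcard, hF⟩ := stage hk D hD hne
    exact ⟨y, hy, E, hEM, hyE, hcard, hF, zc_of_dom (dom_mono h1 hDE) y,
      zc_of_dom (dom_mono h0 hDE) y⟩

lemma claim1 {W : Type} [DecidableEq W] [Finite W] {H : SimpleGraph W} {M : Set W} {k : ℕ}
    (hM : M.Nonempty)
    (hk : ∀ T ⊆ M, T.Nonempty → ∃ y ∈ T, ∃ S : Finset W, (↑S : Set W) ⊆ T ∧ y ∉ S ∧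
      S.card ≤ k ∧ Fn H T y S)
    (D : Finset W) (hD : (↑D : Set W) ⊆ M) (h : Dom H M True D ∨ Dom H M False D) :
    Good H M (D.card + 2 * k + 1) := by
  by_cases hne : M ⊆ ↑D
  · exact good_mono (good_of_subset hM D hD hne) (by omega)
  · obtain ⟨y, hy, E, hDE, hEM, hyE, hcard, hF⟩ := stage hk D hD hne
    have hins : (↑(insert y E) : Set W) ⊆ M := by
      rw [Finset.coe_insert]
      exact Set.insert_subset hy hEM
    have hci : (insert y E).card ≤ D.card + k + 1 :=
      (Finset.card_insert_le _ _).trans (by omega)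
    have hsub : D ⊆ insert y E := hDE.trans (Finset.subset_insert _ _)
    by_cases hT : Zc H M True y E
    · by_cases hFa : Zc H M False y E
      · exact ⟨y, hy, E, hEM, hyE, by omega, hF, hT, hFa⟩
      · have hd0 := dom_of_not_zc hF hFa
        rcases h with h | h
        · exact good_mono (claim2 hM hk (insert y E) hins (dom_mono h hsub) hd0) (by omega)
        · exact absurd (zc_of_dom (dom_mono h hDE) y) hFa
    · have hd1 := dom_of_not_zc hF hT
      rcases h with h | h
      · exact absurd (zc_of_dom (dom_mono h hDE) y) hT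
      · exact good_mono (claim2 hM hk (insert y E) hins hd1 (dom_mono h hsub)) (by omega)

lemma claim0 {W : Type} [DecidableEq W] [Finite W] {H : SimpleGraph W} {M : Set W} {k : ℕ}
    (hM : M.Nonempty)
    (hk : ∀ T ⊆ M, T.Nonempty → ∃ y ∈ T, ∃ S : Finset W, (↑S : Set W) ⊆ T ∧ y ∉ S ∧
      S.card ≤ k ∧ Fn H T y S) :
    Good H M (3 * k + 2) := by
  have hne : ¬ M ⊆ ((∅ : Finset W) : Set W) := by
    obtain ⟨v, hv⟩ := hM
    intro h
    simpa using h hv
  obtain ⟨y, hy, E, hDE, hEM, hyE, hcard, hF⟩ := stage hk ∅ (by simp) hne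
  have hins : (↑(insert y E) : Set W) ⊆ M := by
    rw [Finset.coe_insert]
    exact Set.insert_subset hy hEM
  have hcard' : E.card ≤ k := by simpa using hcard
  have hci : (insert y E).card ≤ k + 1 :=
    (Finset.card_insert_le _ _).trans (by omega)
  by_cases hT : Zc H M True y E
  · by_cases hFa : Zc H M False y E
    · exact ⟨y, hy, E, hEM, hyE, by omega, hF, hT, hFa⟩
    · exact good_mono (claim1 hM hk (insert y E) hins (Or.inr (dom_of_not_zc hF hFa)))
        (by omega)
  · exact good_mono (claim1 hM hk (insert y E) hins (Or.inl (dom_of_not_zc hF hT)))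
      (by omega)

/-- From a good pair inside a module with at least two vertices to the whole graph. -/
lemma of_good {W : Type} {H : SimpleGraph W} {M : Set W} (hmod : IsModule H M)
    (h2 : ∃ a ∈ M, ∃ b ∈ M, a ≠ b) {m : ℕ} (h : Good H M m) :
    ∃ y, ∃ D : Finset W, y ∉ D ∧ D.card ≤ m ∧ Fn H Set.univ y D := by
  obtain ⟨y, hy, D, hDM, hyD, hcard, hF, hT, hFa⟩ := h
  refine ⟨y, D, hyD, hcard, ?_⟩
  -- `D` is nonempty
  have hne : D.Nonempty := by
    by_contra hD
    rw [Finset.not_nonempty_iff_eq_empty] at hD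
    subst hD
    obtain ⟨a, ha, b, hb, hab⟩ := h2
    have : ∃ z ∈ M, z ≠ y := by
      by_cases h : a = y
      · exact ⟨b, hb, fun h' => hab (h.trans h'.symm)⟩
      · exact ⟨a, ha, h⟩
    obtain ⟨z, hz, hzy⟩ := this
    have e1 := hT z hz (by simp) hzy (by simp)
    have e2 := hFa z hz (by simp) hzy (by simp)
    tauto
  obtain ⟨d, hd⟩ := hne
  -- outside the module the pattern is constant
  have hout : ∀ z, z ∉ M → ∀ x ∈ D, (H.Adj x z ↔ H.Adj y z) := by
    intro z hz x hx
    rcases hmod z hz with h | h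
    · have a1 := h x (hDM hx)
      have a2 := h y hy
      simp [a1.symm, a2.symm]
    · have a1 : ¬ H.Adj x z := fun h' => h x (hDM hx) h'.symm
      have a2 : ¬ H.Adj y z := fun h' => h y hy h'.symm
      simp [a1, a2]
  have hmix : ∀ z ∈ M, ∀ w, w ∉ M → z ∉ D → z ≠ y →
      (∀ x ∈ D, (H.Adj x z ↔ H.Adj x w)) → (H.Adj y z ↔ H.Adj y w) := by
    intro z hz w hw hzD hzy hx
    by_cases hc : H.Adj y w
    · have := hT z hz hzD hzy (fun x hxD => by
        rw [hx x hxD, hout w hw x hxD]; simp [hc])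
      rw [this]; simp [hc]
    · have := hFa z hz hzD hzy (fun x hxD => by
        rw [hx x hxD, hout w hw x hxD]; simp [hc])
      rw [this]; simp [hc]
  intro z _ w _ hzD hzy hwD hwy hx
  by_cases hzM : z ∈ M
  · by_cases hwM : w ∈ M
    · exact hF z hzM w hwM hzD hzy hwD hwy hx
    · exact hmix z hzM w hwM hzD hzy hx
  · by_cases hwM : w ∈ M
    · exact (hmix w hwM z hzM hwD hwy (fun x hxD => (hx x hxD).symm)).symm
    · rw [← hout z hzM d hd, ← hout w hwM d hd]
      exact hx d hd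

/-! ### Relation with the definitions -/

lemma isFunctionOf_of_fn {W : Type} {H : SimpleGraph W} {y : W} {D : Finset W}
    (hy : y ∉ D) (hF : Fn H Set.univ y D) : IsFunctionOf H y D := by
  refine ⟨hy, fun p => ∃ z, z ∉ D ∧ z ≠ y ∧ (∀ x : D, (p x ↔ H.Adj x z)) ∧ H.Adj y z, ?_⟩
  intro z hzy hzD
  constructor
  · intro h
    exact ⟨z, hzD, hzy, fun x => Iff.rfl, h⟩
  · rintro ⟨w, hwD, hwy, hx, hyw⟩
    exact (hF w trivial z trivial hwD hwy hzD hzy (fun x hxD => (hx ⟨x, hxD⟩).symm)).mp hyw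

lemma funAt_spec {W : Type} [Finite W] (H : SimpleGraph W) (y : W) :
    ∃ S : Finset W, S.card = funAt H y ∧ IsFunctionOf H y S := by
  classical
  have hne : {k | ∃ S : Finset W, S.card = k ∧ IsFunctionOf H y S}.Nonempty := by
    have : Fintype W := Fintype.ofFinite W
    refine ⟨_, Finset.univ.erase y, rfl, ?_⟩
    refine isFunctionOf_of_fn (by simp) ?_
    intro z _ w _ hz hzy
    exact absurd (Finset.mem_erase.mpr ⟨hzy, Finset.mem_univ z⟩) hz
  exact Nat.sInf_mem hne

lemma funAt_le {W : Type} {H : SimpleGraph W} {y : W} {S : Finset W}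
    (h : IsFunctionOf H y S) : funAt H y ≤ S.card :=
  Nat.sInf_le ⟨S, rfl, h⟩

lemma functionality_le_iff {V : Type} [Finite V] (G : SimpleGraph V) (k : ℕ) :
    functionality G ≤ k ↔
      ∀ s : Set V, s.Nonempty → ∃ y : s, funAt (G.induce s) y ≤ k := by
  have hfin : Finite {s : Set V // s.Nonempty} := inferInstance
  have hb : BddAbove (Set.range fun s : {s : Set V // s.Nonempty} =>
      ⨅ y : s.1, funAt (G.induce s.1) y) := (Set.finite_range _).bddAbove
  constructor
  · intro h s hs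
    have h1 := (le_ciSup hb ⟨s, hs⟩).trans h
    have : Nonempty s := hs.to_subtype
    obtain ⟨y, hy⟩ := ciInf_mem (fun y : s => funAt (G.induce s) y)
    exact ⟨y, hy.le.trans h1⟩
  · intro h
    unfold functionality
    rcases isEmpty_or_nonempty {s : Set V // s.Nonempty} with he | he
    · rw [iSup_of_empty']
      simp
    · refine ciSup_le ?_
      rintro ⟨s, hs⟩
      obtain ⟨y, hy⟩ := h s hs
      exact (ciInf_le (OrderBot.bddBelow _) y).trans hy

/-- the hypothesis of the core lemma from a bound on the functionality of `H[M]` -/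
lemma core_hyp {W : Type} [Finite W] (H : SimpleGraph W) (M : Set W) (k : ℕ)
    (h : functionality (H.induce M) ≤ k) :
    ∀ T ⊆ M, T.Nonempty → ∃ y ∈ T, ∃ S : Finset W, (↑S : Set W) ⊆ T ∧ y ∉ S ∧
      S.card ≤ k ∧ Fn H T y S := by
  classical
  intro T hTM hT
  rw [functionality_le_iff] at h
  obtain ⟨t, ht⟩ := hT
  obtain ⟨y, hy⟩ := h (Subtype.val ⁻¹' T) ⟨⟨t, hTM ht⟩, ht⟩
  obtain ⟨S, hS, hyS, f, hf⟩ := funAt_spec ((H.induce M).induce (Subtype.val ⁻¹' T)) y
  have hinj : Function.Injective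
      (fun x : ↥(Subtype.val ⁻¹' T : Set ↥M) => (x.1.1 : W)) := by
    intro a b hab
    exact Subtype.ext (Subtype.ext hab)
  refine ⟨y.1.1, y.2, S.map ⟨_, hinj⟩, ?_, ?_, ?_, ?_⟩
  · intro x hx
    simp only [Finset.coe_map, Set.mem_image] at hx
    obtain ⟨x', _, rfl⟩ := hx
    exact x'.2
  · intro h'
    rw [Finset.mem_map] at h'
    obtain ⟨x', hx', hx''⟩ := h'
    have : x' = y := hinj hx''
    exact hyS (this ▸ hx')
  · rw [Finset.card_map, hS]; exact hy
  · intro z hz w hw hzS hzy hwS hwy hx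
    have hkey : ∀ (z : W) (hz : z ∈ T), z ∉ S.map ⟨_, hinj⟩ → z ≠ y.1.1 →
        (H.Adj y.1.1 z ↔ f (fun x => H.Adj x.1.1.1 z)) := by
      intro z hz hzS hzy
      have := hf ⟨⟨z, hTM hz⟩, hz⟩ (fun h' => hzy (by rw [← h'])) (fun h' => hzS (by
        rw [Finset.mem_map]
        exact ⟨_, h', rfl⟩))
      exact this
    rw [hkey z hz hzS hzy, hkey w hw hwS hwy]
    have : (fun x : S => H.Adj x.1.1.1 z) = (fun x : S => H.Adj x.1.1.1 w) := by
      funext x
      exact propext (hx x.1.1.1 (by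
        rw [Finset.mem_map]
        exact ⟨x.1, x.2, rfl⟩))
    rw [this]

/-- a minimal module with at least two vertices induces a prime graph -/
lemma exists_module {W : Type} [Finite W] (H : SimpleGraph W) (h2 : ∃ a b : W, a ≠ b) :
    ∃ M : Set W, IsModule H M ∧ (∃ a ∈ M, ∃ b ∈ M, a ≠ b) ∧ IsPrimeGraph (H.induce M) := by
  classical
  let P : ℕ → Prop := fun n => ∃ M : Set W, IsModule H M ∧ (∃ a ∈ M, ∃ b ∈ M, a ≠ b) ∧
    M.ncard = n
  have hP : ∃ n, P n := by
    obtain ⟨a, b, hab⟩ := h2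
    exact ⟨_, Set.univ, fun v hv => absurd (Set.mem_univ v) hv,
      ⟨a, Set.mem_univ a, b, Set.mem_univ b, hab⟩, rfl⟩
  obtain ⟨M, hM, hM2, hcard⟩ := Nat.find_spec hP
  refine ⟨M, hM, hM2, ?_⟩
  intro N hN
  by_cases hne : N = ∅
  · exact Or.inl hne
  by_cases hs : ∃ v, N = {v}
  · exact Or.inr (Or.inr hs)
  refine Or.inr (Or.inl ?_)
  -- the image of `N` in `W`
  have hN2 : ∃ a ∈ N, ∃ b ∈ N, a ≠ b := by
    obtain ⟨a, ha⟩ := Set.nonempty_iff_ne_empty.mpr hne
    by_contra hcon
    push Not at hcon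
    refine hs ⟨a, ?_⟩
    ext b
    simp only [Set.mem_singleton_iff]
    constructor
    · intro hb
      exact hcon b hb a ha
    · rintro rfl
      exact ha
  have hNmod : IsModule H (Subtype.val '' N) := by
    intro v hv
    by_cases hvM : v ∈ M
    · have hvN : (⟨v, hvM⟩ : M) ∉ N := fun h => hv ⟨_, h, rfl⟩
      rcases hN ⟨v, hvM⟩ hvN with h | h
      · left
        rintro _ ⟨m, hm, rfl⟩
        exact h m hm
      · right
        rintro _ ⟨m, hm, rfl⟩
        exact h m hm
    · rcases hM v hvM with h | h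
      · left
        rintro _ ⟨m, hm, rfl⟩
        exact h m.1 m.2
      · right
        rintro _ ⟨m, hm, rfl⟩
        exact h m.1 m.2
  have hle : Nat.find hP ≤ (Subtype.val '' N : Set W).ncard := by
    refine Nat.find_min' hP ⟨_, hNmod, ?_, rfl⟩
    obtain ⟨a, ha, b, hb, hab⟩ := hN2
    exact ⟨a.1, ⟨a, ha, rfl⟩, b.1, ⟨b, hb, rfl⟩, fun h => hab (Subtype.ext h)⟩
  have hsub : (Subtype.val '' N : Set W) ⊆ M := by
    rintro _ ⟨m, _, rfl⟩
    exact m.2
  have heq : (Subtype.val '' N : Set W) = M :=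
    Set.eq_of_subset_of_ncard_le hsub (by rw [hcard]; exact hle) (Set.toFinite M)
  ext m
  simp only [Set.mem_univ, iff_true]
  have : m.1 ∈ (Subtype.val '' N : Set W) := by rw [heq]; exact m.2
  obtain ⟨m', hm', h⟩ := this
  have : m' = m := Subtype.ext h
  exact this ▸ hm'

/-- **Main theorem.**  Answer to Q1: yes.  For a hereditary class `X` of finite graphs, if all
prime graphs in `X` have functionality at most `k`, then all graphs in `X` have functionality
at most `3 * k + 2`; in particular bounded functionality of the prime graphs of `X` implies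
bounded functionality of `X`. -/
theorem result (X : ∀ V : Type, SimpleGraph V → Prop) (hX : Hereditary X) :
    (∀ k : ℕ,
      (∀ (V : Type) [Finite V] (G : SimpleGraph V), X V G → IsPrimeGraph G →
        functionality G ≤ k) →
      ∀ (V : Type) [Finite V] (G : SimpleGraph V), X V G → functionality G ≤ 3 * k + 2) ∧
    ((∃ k : ℕ, ∀ (V : Type) [Finite V] (G : SimpleGraph V), X V G → IsPrimeGraph G →
        functionality G ≤ k) →
      ∃ K : ℕ, ∀ (V : Type) [Finite V] (G : SimpleGraph V), X V G → functionality G ≤ K) := by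
  classical
  have key : ∀ k : ℕ,
      (∀ (V : Type) [Finite V] (G : SimpleGraph V), X V G → IsPrimeGraph G →
        functionality G ≤ k) →
      ∀ (V : Type) [Finite V] (G : SimpleGraph V), X V G → functionality G ≤ 3 * k + 2 := by
    intro k hk V _ G hG
    rw [functionality_le_iff]
    intro s hs
    have hHX : X s (G.induce s) :=
      hX V s G (G.induce s) ⟨SimpleGraph.Embedding.induce s⟩ hG
    by_cases h2 : ∃ a b : s, a ≠ b
    · obtain ⟨M, hM, hM2, hprime⟩ := exists_module (G.induce s) h2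
      have hMX : X M ((G.induce s).induce M) :=
        hX s M (G.induce s) ((G.induce s).induce M) ⟨SimpleGraph.Embedding.induce M⟩ hHX
      have hfun := hk M ((G.induce s).induce M) hMX hprime
      have hne : M.Nonempty := by
        obtain ⟨a, ha, _⟩ := hM2
        exact ⟨a, ha⟩
      have hgood := claim0 hne (core_hyp (G.induce s) M k hfun)
      obtain ⟨y, D, hyD, hcard, hF⟩ := of_good hM hM2 hgood
      exact ⟨y, (funAt_le (isFunctionOf_of_fn hyD hF)).trans hcard⟩
    · push Not at h2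
      obtain ⟨a, ha⟩ := hs
      refine ⟨⟨a, ha⟩, ?_⟩
      have : IsFunctionOf (G.induce s) ⟨a, ha⟩ ∅ := by
        refine isFunctionOf_of_fn (by simp) ?_
        intro z _ w _ _ hz
        exact absurd (h2 z _) hz
      refine (funAt_le this).trans ?_
      simp
  refine ⟨key, ?_⟩
  rintro ⟨k, hk⟩
  exact ⟨3 * k + 2, fun V _ G hG => key k hk V G hG⟩

end Pool.Agent.Results.MP_42f001_co.PrimeGraphs
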